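import Pool.Agent.R858.QE6

/-!
# MP_9fbe61_ag: restricted quasi-diagonals in odd powers of every elliptic curve

Let `E` be an elliptic curve. It has an equation `v² = (u + 2) (u³ - 3 u + a)` with `a² ≠ 4`: send a point
of order three of the Weierstrass curve to a suitable place and the origin to `u = -2`. Let `C` be the
curve `y² = x⁶ + a x³ + 1` of genus two. For the three cube roots of unity `ω` put `t = ω x`; there is a
morphism of degree two

`f_ω : C → E`, `u = t + 1 / t`, `v = y (1 + t) / t²`.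

Let `S ⊆ E³` be the image of `(f_1, f_ζ, f_ζ²)`; it is a curve with normalization `C`.

* `S` is restricted: `f_ω = f_1 ∘ ρ_ω` where `ρ_ω (x, y) = (ω x, y)`, and the orbits of the group of the `ρ_ω`
  are the fibres of the rational function `y - x³`. So the sum of the images is the push forward
  of a fibre, and is constant.
* Let `L = O_E(D)`, where `D` is the divisor of poles of `u`. The functions `U_ω = u ∘ f_ω` satisfy
  `U² + U U' + U'² = 3` for different `ω`, `ω'`, hence
  `(U / U')³ = 1 + 9 / (U U'³) - 6 / U'² - 3 / (U U')` and its inverse are regular functions on `S` near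
  the points with `u = ∞`. So the third powers of the bundles `p_i^* L|_S` are isomorphic
  on the (nodal) curve `S` itself.

For odd `n > 3` add the coordinates `f_1, -f_1` several times (`-(u, v) = (u, -v)`).

Curves are given by their function fields, see `Pool/Agent/Helper395/CS/Defs.lean`: the closed points
are the normalised discrete valuations of the function field over `ℂ`, and a nonconstant morphism
`C → E` is an embedding of the function field of `E` into that of `C`.
-/

open scoped WithZero Polynomial IntermediateField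

namespace Pool.Agent.Results.MP_9fbe61_ag.OddPowers

open Pool.Agent.Helper395.CS hiding genus map_mul map_inv
open Pool.Agent.Helper395.BC
open Pool.Agent.R858.BN
open Pool.Agent.R858.QD
open Pool.Agent.R858.QE
open Pool.Agent.Y803.FD (Kf xf yf Pf Pf_irreducible hypf hyp_all ιf phi phi_x phi_y eqv
  xf_transcendental adjoinf)
open Pool.Agent.W518.SMR (lpole lpole_val)

section

variable {F K : Type} [Field F] [Algebra ℂ F] [Field K] [Algebra ℂ K] {n : ℕ}

/-- Let `E` and `C` be the curves with function fields `F` and `K`, and let `φ i` describe morphisms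
`f_i : C → E`. The subring of `K` generated by the pull backs under the `f_i` of the local rings of `E`
at the points `f_i(v)`. -/
def coordRing (φ : Fin n → F →ₐ[ℂ] K) (v : Point K) : Subring K :=
  Subring.closure {z : K | ∃ (i : Fin n) (g : F), v.val (φ i g) ≤ 1 ∧ φ i g = z}

/-- Let `S ⊆ E^n` be the image of `(f_1, …, f_n) : C → E^n`. The rational function `z` is in the local
ring of the curve `S` at the image of `v`: it is a quotient of two functions induced by the local ring
of `E^n`, where the denominator does not vanish at the point. -/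
def InLocalRing (φ : Fin n → F →ₐ[ℂ] K) (v : Point K) (z : K) : Prop :=
  ∃ a ∈ coordRing φ v, ∃ b ∈ coordRing φ v, v.val b = 1 ∧ z * b = a

/-- `S`, the image of `(f_1, …, f_n) : C → E^n`, is a quasi-diagonal over `(E, L)`. First, `C → S` is
birational: `K` is generated by the images of the `φ i`, so `C` is the normalization of `S`. Second,
for all `i`, `j` some positive power `m` of `p_i^* L ⊗ (p_j^* L)⁻¹` restricted to `S` is trivial: there is
a rational function `c ≠ 0` such that, at each point of `S`, the product of `c` and of the generator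
of the stalk of the `m`-th power is a unit of the local ring of `S`. -/
structure IsQuasiDiagonal (φ : Fin n → F →ₐ[ℂ] K) (L : LineBundle F) : Prop where
  generates : IntermediateField.adjoin ℂ {z : K | ∃ (i : Fin n) (g : F), φ i g = z} = ⊤
  torsion : ∀ i j : Fin n, ∃ m : ℕ, 0 < m ∧ ∃ c : K, c ≠ 0 ∧
    ∀ (v : Point K) (p q : Point F), LiesOver (φ i) v p → LiesOver (φ j) v q →
      InLocalRing φ v (c * (φ i (L.frame p) / φ j (L.frame q)) ^ m) ∧
      InLocalRing φ v (c * (φ i (L.frame p) / φ j (L.frame q)) ^ m)⁻¹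

open Classical in
/-- The sum `∑_i f_i(v)`, in the group `E` with origin `e`, is a constant `s`: for all `v` the divisor
`∑_i (f_i(v)) - (s) - (n - 1) (e)` is the divisor of a rational function. -/
def IsRestricted (φ : Fin n → F →ₐ[ℂ] K) (e : Point F) : Prop :=
  ∃ s : Point F, ∀ v : Point K, ∃ c : F, c ≠ 0 ∧ ∀ p : Point F,
    p.ord c = (Nat.card {i : Fin n // LiesOver (φ i) v p} : ℤ) - (if p = s then 1 else 0)
      - (if p = e then (n : ℤ) - 1 else 0)

theorem mem_coordRing {φ : Fin n → F →ₐ[ℂ] K} {v : Point K} (i : Fin n) {g : F}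
    (h : v.val (φ i g) ≤ 1) : φ i g ∈ coordRing φ v :=
  Subring.subset_closure ⟨i, g, h, rfl⟩

theorem inLocalRing_of_mem {φ : Fin n → F →ₐ[ℂ] K} {v : Point K} {z : K}
    (h : z ∈ coordRing φ v) : InLocalRing φ v z :=
  ⟨z, h, 1, one_mem _, map_one _, mul_one _⟩

/-- the transition functions between the coordinates -/
theorem frame_mem {x y : K} {ι : K ≃ₐ[ℂ] K} {a : ℂ} (H : Hyp x y (g6 a) ι) (hF : IsCurve F)
    {φ : Fin n → F →ₐ[ℂ] K} (u : Fˣ) (hφ : ∀ i, ∃ ω : ℂ, ω ^ 3 = 1 ∧ φ i u = Uf x ω)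
    (i j : Fin n) (v : Point K) (p q : Point F) (hp : LiesOver (φ i) v p)
    (hq : LiesOver (φ j) v q) :
    (φ i ((lpole hF u).frame p) / φ j ((lpole hF u).frame q)) ^ 3 ∈ coordRing φ v := by
  have unit : ∀ (k : Fin n) (r : Point F) (g : F), LiesOver (φ k) v r → r.val g = 1 →
      φ k g ∈ coordRing φ v := by
    intro k r g hr hg
    exact mem_coordRing k ((hr g).2 hg.le)
  have hinv : ∀ (r : Point F) (g : F), r.val g = 1 → r.val g⁻¹ = 1 := by
    intro r g hg
    rw [map_inv₀, hg, inv_one]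
  have hω0 : ∀ ω : ℂ, ω ^ 3 = 1 → ω ≠ 0 := by
    rintro ω h rfl
    norm_num at h
  have finite_case : (∀ k, v.val (φ k u) ≤ 1) →
      (φ i ((lpole hF u).frame p) / φ j ((lpole hF u).frame q)) ^ 3 ∈ coordRing φ v := by
    intro h
    have h1 : p.val ((lpole hF u).frame p : F) = 1 := by
      rw [lpole_val, max_eq_left ((hp u).1 (h i))]
    have h2 : q.val ((lpole hF u).frame q : F) = 1 := by
      rw [lpole_val, max_eq_left ((hq u).1 (h j))]
    refine pow_mem ?_ 3
    rw [div_eq_mul_inv, ← map_inv₀]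
    exact mul_mem (unit i p _ hp h1) (unit j q _ hq (hinv q _ h2))
  have inf_case : (∀ k, Rs v (φ k u)⁻¹ 0) →
      (φ i ((lpole hF u).frame p) / φ j ((lpole hF u).frame q)) ^ 3 ∈ coordRing φ v := by
    intro h
    have hpole : ∀ (k : Fin n) (r : Point F), LiesOver (φ k) v r → 1 < r.val (u : F) := by
      intro k r hr
      by_contra h1
      have h2 := (hr u).2 (not_lt.1 h1)
      have h3 : v.val (φ k u)⁻¹ < 1 := (h k).lt_iff.2 rfl
      have h4 : v.val (φ k u) ≠ 0 := v.val_ne_zero ((map_ne_zero _).2 u.ne_zero)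
      rw [map_inv₀] at h3
      have h5 : 1 ≤ (v.val (φ k u))⁻¹ := (one_le_inv₀ (zero_lt_iff.2 h4)).2 h2
      exact absurd h3 (not_lt.2 h5)
    have hg : ∀ (k : Fin n) (r : Point F), LiesOver (φ k) v r →
        r.val ((lpole hF u).frame r / u : F) = 1 := by
      intro k r hr
      rw [map_div₀, lpole_val, max_eq_right (hpole k r hr).le, div_self]
      exact r.val_ne_zero u.ne_zero
    have hs : ∀ k, (φ k u)⁻¹ ∈ coordRing φ v := by
      intro k
      rw [← map_inv₀]
      apply mem_coordRing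
      rw [map_inv₀]
      exact (h k).le
    obtain ⟨ω, hω, hi⟩ := hφ i
    obtain ⟨ω', hω', hj⟩ := hφ j
    have e1 : (φ i ((lpole hF u).frame p) / φ j ((lpole hF u).frame q)) ^ 3 =
        (φ i u / φ j u) ^ 3 * (φ i ((lpole hF u).frame p / u) *
          φ j ((lpole hF u).frame q / u)⁻¹) ^ 3 := by
      have hu1 : φ i (u : F) ≠ 0 := (map_ne_zero _).2 u.ne_zero
      have hu2 : φ j (u : F) ≠ 0 := (map_ne_zero _).2 u.ne_zero
      have hu3 : φ j ((lpole hF u).frame q : F) ≠ 0 := (map_ne_zero _).2 (Units.ne_zero _)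
      rw [map_inv₀, map_div₀, map_div₀, ← mul_pow]
      congr 1
      field_simp
    rw [e1]
    refine mul_mem ?_ (pow_mem (mul_mem (unit i p _ hp (hg i p hp))
      (unit j q _ hq (hinv q _ (hg j q hq)))) 3)
    have h6 := hs i
    have h7 := hs j
    rw [hi] at h6
    rw [hj] at h7
    rw [hi, hj]
    exact cube_mem H.trans hω hω' _ h6 h7
  rcases cases_point H v with ⟨c, b, hc0, hc, hb, -⟩ | ⟨b, -, hc, hb⟩ | ⟨b, -, hc, hb⟩
  · refine finite_case fun k => ?_
    obtain ⟨ω, hω, hk⟩ := hφ k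
    rw [hk]
    exact (rs_U hc hc0 (hω0 ω hω)).le
  · refine inf_case fun k => ?_
    obtain ⟨ω, hω, hk⟩ := hφ k
    rw [hk]
    exact rs_Uinv_zero H.x_ne hc (hω0 ω hω)
  · refine inf_case fun k => ?_
    obtain ⟨ω, hω, hk⟩ := hφ k
    rw [hk]
    exact rs_Uinv_inf H.x_ne hc (hω0 ω hω)

end

/-- For every elliptic curve `E` (function field `F`, genus one) with origin `e` and every odd `n ≥ 3`
there are an ample line bundle `L` on `E` and a restricted quasi-diagonal over `(E, L)` in `E^n`. The first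
clause says that every point of the source of a morphism of curves has exactly one image. -/
theorem result :
    (∀ (F K : Type) [Field F] [Algebra ℂ F] [Field K] [Algebra ℂ K] (φ : F →ₐ[ℂ] K),
      IsCurve F → IsCurve K → ∀ v : Point K, ∃! p : Point F, LiesOver φ v p) ∧
    ∀ (F : Type) [Field F] [Algebra ℂ F], IsCurve F → genus F = 1 → ∀ (e : Point F) (n : ℕ),
      Odd n → 3 ≤ n →
      ∃ (K : Type) (_ : Field K) (_ : Algebra ℂ K), IsCurve K ∧
        ∃ (L : LineBundle F) (φ : Fin n → F →ₐ[ℂ] K), 1 ≤ L.degree ∧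
          IsQuasiDiagonal φ L ∧ IsRestricted φ e := by
  classical
  refine ⟨fun F K _ _ _ _ φ hF hK v => existsUnique_image hF hK φ v, ?_⟩
  intro F _ _ hF hg e n hodd hn
  obtain ⟨j, rfl⟩ : ∃ j, n = 3 + 2 * j := by
    obtain ⟨k, hk⟩ := hodd
    exact ⟨k - 1, by omega⟩
  obtain ⟨u, w, a, ha, hut, huw, hgen⟩ := normal_form hF hg e
  have h6 : Fact (Irreducible (Pf (g6 a))) :=
    ⟨Pf_irreducible (g6_sep ha) (by rw [g6_natDegree]; norm_num)⟩
  have h4 : Fact (Irreducible (Pf (g4 a))) :=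
    ⟨Pf_irreducible (g4_sep ha) (by rw [g4_natDegree]; norm_num)⟩
  have H := hypf (f := g6 a) (g6_sep ha)
  have huw' : w ^ 2 = Polynomial.aeval u (g4 a) := by rw [aeval_g4, huw]
  have H4 := hyp_all (f := g4 a) (g4_sep ha) hut huw' hgen
  set ιF := ((eqv hut huw' hgen).symm.trans (ιf (g4 a))).trans (eqv hut huw' hgen) with hιF
  obtain ⟨ζ, hζ, hζ1⟩ : ∃ ζ : ℂ, ζ ^ 3 = 1 ∧ ζ ≠ 1 := by
    have h1 := Complex.isPrimitiveRoot_exp 3 (by norm_num)
    exact ⟨_, h1.pow_eq_one, h1.ne_one (by norm_num)⟩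
  have hζ0 : ζ ≠ 0 := by
    rintro rfl
    norm_num at hζ
  set x := xf (g6 a) with hx
  set y := yf (g6 a) with hy
  let m := algebraMap ℂ (Kf (g6 a))
  have hmζ : m ζ ^ 3 = 1 := by rw [← map_pow, hζ, map_one]
  have hmζ0 : m ζ ≠ 0 := by simpa [m] using hζ0
  -- the automorphism
  obtain ⟨ρ, hρx, hρy⟩ : ∃ ρ : Kf (g6 a) ≃ₐ[ℂ] Kf (g6 a), ρ x = m ζ * x ∧ ρ y = y := by
    have ht : Transcendental ℂ (m ζ * x) := by
      intro h
      apply H.trans
      have h1 := h.mul (isAlgebraic_algebraMap (A := Kf (g6 a)) ζ⁻¹)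
      have h2 : m ζ * x * algebraMap ℂ (Kf (g6 a)) ζ⁻¹ = x := by
        change m ζ * x * m ζ⁻¹ = x
        rw [map_inv₀]
        field_simp
      rwa [h2] at h1
    have heq : y ^ 2 = Polynomial.aeval (m ζ * x) (g6 a) := by
      rw [H.eq, aeval_g6, aeval_g6]
      have h1 : (m ζ * x) ^ 3 = x ^ 3 := by rw [mul_pow, hmζ, one_mul]
      have h2 : (m ζ * x) ^ 6 = x ^ 6 := by
        calc (m ζ * x) ^ 6 = ((m ζ * x) ^ 3) ^ 2 := by ring
          _ = x ^ 6 := by rw [h1]; ring
      rw [h1, h2]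
    have htop : IntermediateField.adjoin ℂ {m ζ * x, y} = ⊤ := by
      rw [eq_top_iff, ← adjoinf (f := g6 a), IntermediateField.adjoin_le_iff]
      have h1 : m ζ * x ∈ IntermediateField.adjoin ℂ {m ζ * x, y} :=
        IntermediateField.subset_adjoin ℂ _ (by simp)
      rintro z (rfl | rfl)
      · have h2 : xf (g6 a) = m ζ⁻¹ * (m ζ * x) := by
          rw [map_inv₀, inv_mul_cancel_left₀ hmζ0]
        rw [h2]
        exact mul_mem (algebraMap_mem _ _) h1
      · exact IntermediateField.subset_adjoin ℂ _ (by simp [hy])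
    exact ⟨eqv ht heq htop, phi_x ht heq, phi_y ht heq⟩
  -- the morphism of degree two
  obtain ⟨ψ, hψu, hψw⟩ : ∃ ψ : F →ₐ[ℂ] Kf (g6 a), ψ u = Uf x 1 ∧ ψ w = Vf x y 1 := by
    have ht := U_transc (ω := 1) H.trans one_ne_zero
    have hsq := V_sq H (one_pow 3)
    refine ⟨(phi ht hsq).comp ((eqv hut huw' hgen).symm : F →ₐ[ℂ] Kf (g4 a)), ?_, ?_⟩
    · have h2 : (eqv hut huw' hgen).symm u = xf (g4 a) := by
        rw [AlgEquiv.symm_apply_eq]
        exact (phi_x hut huw').symm
      change phi ht hsq ((eqv hut huw' hgen).symm u) = _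
      rw [h2, phi_x]
    · have h2 : (eqv hut huw' hgen).symm w = yf (g4 a) := by
        rw [AlgEquiv.symm_apply_eq]
        exact (phi_y hut huw').symm
      change phi ht hsq ((eqv hut huw' hgen).symm w) = _
      rw [h2, phi_y]
  have hρU : ∀ ω : ℂ, ρ (Uf x ω) = Uf x (ω * ζ) := by
    intro ω
    have h1 : algebraMap ℂ (Kf (g6 a)) ω * (m ζ * x) = algebraMap ℂ (Kf (g6 a)) (ω * ζ) * x := by
      rw [map_mul, mul_assoc]
    rw [Uf, Uf, map_add, map_inv₀, map_mul, AlgEquiv.commutes, hρx, h1]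
  let φ : ℕ → F →ₐ[ℂ] Kf (g6 a) := seq ψ ((ρ : Kf (g6 a) →ₐ[ℂ] Kf (g6 a)).comp ψ)
    ((ρ : Kf (g6 a) →ₐ[ℂ] Kf (g6 a)).comp ((ρ : Kf (g6 a) →ₐ[ℂ] Kf (g6 a)).comp ψ))
    (ψ.comp (ιF : F →ₐ[ℂ] F))
  have hψι : ψ (ιF u) = Uf x 1 := by rw [H4.inv_x, hψu]
  have hφu : ∀ i, ∃ ω : ℂ, ω ^ 3 = 1 ∧ φ i u = Uf x ω := by
    intro i
    refine seq_rel (fun (f : F →ₐ[ℂ] Kf (g6 a)) (_ : ℕ) => ∃ ω : ℂ, ω ^ 3 = 1 ∧ f u = Uf x ω)
      (A' := 0) (B' := 0) (C' := 0) (D' := 0) ?_ ?_ ?_ ?_ i
    · exact ⟨1, one_pow 3, hψu⟩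
    · refine ⟨1 * ζ, by rw [one_mul, hζ], ?_⟩
      change ρ (ψ u) = _
      rw [hψu, hρU]
    · refine ⟨1 * ζ * ζ, ?_, ?_⟩
      · rw [one_mul, mul_pow, hζ, one_mul]
      · change ρ (ρ (ψ u)) = _
        rw [hψu, hρU, hρU]
    · exact ⟨1, one_pow 3, hψι⟩
  have hu0 : u ≠ 0 := ne_zero_of_transcendental hut
  choose p0 hp0 using fun v => (existsUnique_image hF H.curve ψ v).exists
  let Q : Point (Kf (g6 a)) → ℕ → Point F := fun v => seq (p0 v) (p0 (v.comap ρ))
    (p0 ((v.comap ρ).comap ρ)) ((p0 v).comap ιF)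
  have hQ : ∀ v i, LiesOver (φ i) v (Q v i) := by
    intro v i
    exact seq_rel (fun (f : F →ₐ[ℂ] Kf (g6 a)) (p : Point F) => LiesOver f v p)
      (hp0 v) (fun z => hp0 (v.comap ρ) z) (fun z => hp0 ((v.comap ρ).comap ρ) z)
      ((hp0 v).comap ιF) i
  obtain ⟨v0⟩ := point_nonempty H.curve
  refine ⟨Kf (g6 a), inferInstance, inferInstance, H.curve, lpole hF (Units.mk0 u hu0),
    fun i => φ i, ?_, ⟨?_, ?_⟩, ?_⟩
  · rw [Pool.Agent.W518.EG.lpole_degree, Units.val_mk0, H4.degP_x]
    norm_num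
  · refine gen_top (x := x) (y := y) H.trans (adjoinf (f := g6 a)) hζ hζ1 ?_ ?_ ?_
    · exact IntermediateField.subset_adjoin ℂ _ ⟨⟨0, by omega⟩, u, hψu⟩
    · refine IntermediateField.subset_adjoin ℂ _ ⟨⟨1, by omega⟩, u, ?_⟩
      change ρ (ψ u) = _
      rw [hψu, hρU, one_mul]
    · exact IntermediateField.subset_adjoin ℂ _ ⟨⟨0, by omega⟩, w, hψw⟩
  · intro i k
    refine ⟨3, by norm_num, 1, one_ne_zero, fun v p q hp hq => ⟨?_, ?_⟩⟩
    · rw [one_mul]
      exact inLocalRing_of_mem (frame_mem H hF (φ := fun i : Fin (3 + 2 * j) => φ i)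
        (Units.mk0 u hu0) (fun i => hφu i) i k v p q hp hq)
    · rw [one_mul, ← inv_pow, inv_div]
      exact inLocalRing_of_mem (frame_mem H hF (φ := fun i : Fin (3 + 2 * j) => φ i)
        (Units.mk0 u hu0) (fun i => hφu i) k i v q p hq hp)
  · obtain ⟨s, c, hc, hcs⟩ := exists_sum hF hg e (Q v0) (2 + 2 * j)
    refine ⟨s, fun v => ?_⟩
    obtain ⟨c1, hc1, hc1'⟩ := exists_orbit hF H ha hζ hζ1 hρx hρy ψ p0 hp0 v v0
    obtain ⟨g, hg1, hgv⟩ := exists_pair H4 (m := 2) (g4_natDegree a) (p0 v)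
    obtain ⟨g0, hg0, hgv0⟩ := exists_pair H4 (m := 2) (g4_natDegree a) (p0 v0)
    refine ⟨c * c1 * (g * g0⁻¹) ^ j, mul_ne_zero (mul_ne_zero hc hc1)
      (pow_ne_zero _ (mul_ne_zero hg1 (inv_ne_zero hg0))), fun p => ?_⟩
    have hcard : (Nat.card {i : Fin (3 + 2 * j) // LiesOver (φ i) v p} : ℤ) =
        ∑ i ∈ Finset.range (3 + 2 * j), if Q v i = p then 1 else 0 := by
      have h1 : ∀ i, LiesOver (φ i) v p ↔ Q v i = p := by
        intro i
        constructor
        · intro h
          exact (hQ v i).unique h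
        · rintro rfl
          exact hQ v i
      rw [← Fin.sum_univ_eq_sum_range (fun i => if Q v i = p then (1 : ℤ) else 0),
        Nat.card_eq_fintype_card, Fintype.card_subtype, Finset.sum_boole]
      congr 2
      ext i
      simp [h1]
    have hsum : ∀ v, ∑ i ∈ Finset.range (3 + 2 * j), (if Q v i = p then (1 : ℤ) else 0) =
        ((if p0 v = p then 1 else 0) + (if p0 (v.comap ρ) = p then 1 else 0) +
          (if p0 ((v.comap ρ).comap ρ) = p then 1 else 0)) +
        j * ((if p0 v = p then 1 else 0) + (if (p0 v).comap ιF = p then 1 else 0)) := fun v =>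
      seq_sum (p0 v) (p0 (v.comap ρ)) (p0 ((v.comap ρ).comap ρ)) ((p0 v).comap ιF)
        (fun q => if q = p then (1 : ℤ) else 0) j
    have hcs' := hcs p
    rw [show 2 + 2 * j + 1 = 3 + 2 * j by ring, hsum v0] at hcs'
    rw [hcard, hsum v, p.ord_mul (mul_ne_zero hc hc1)
      (pow_ne_zero _ (mul_ne_zero hg1 (inv_ne_zero hg0))), p.ord_mul hc hc1, p.ord_pow,
      p.ord_mul hg1 (inv_ne_zero hg0), p.ord_inv, hcs', hc1', hgv, hgv0]
    have h5 : (if p = s then (1 : ℤ) else 0) = if s = p then 1 else 0 := by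
      congr 1
      exact propext eq_comm
    have h6 : (if p = e then ((3 + 2 * j : ℕ) : ℤ) - 1 else 0) =
        ((2 + 2 * j : ℕ) : ℤ) * if e = p then (1 : ℤ) else 0 := by
      by_cases hpe : p = e
      · rw [if_pos hpe, if_pos hpe.symm]
        push_cast
        ring
      · rw [if_neg hpe, if_neg fun h => hpe h.symm, mul_zero]
    rw [h5, h6]
    ring

end Pool.Agent.Results.MP_9fbe61_ag.OddPowers
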